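import Pool.Agent.H36.Nsep

open Pool.Agent.H38.NP Pool.Agent.H36.Nsep

theorem Pool.Agent.Results.MP_75fd85_lc.Hard.result : NPHardOn Valid Short :=
  hard.npHardOn
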